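import Mathlib

set_option autoImplicit false

open MeasureTheory Set Filter Topology

namespace Pool.Agent.Results.MP_ee56ef_an.Counterexample

/-- The achievement set of the multigeometric series `(k_1,…,k_m; 1/n)`: all subsums of the
family `k_i / n^(j+1)`, `i` in `Fin m`, `j = 0,1,2,…`. -/
def achievementSet (n : ℕ) {m : ℕ} (k : Fin m → ℕ) : Set ℝ :=
  {s | ∃ A : Set (Fin m × ℕ),
    s = ∑' p : Fin m × ℕ, A.indicator (fun p => (k p.1 : ℝ) / (n : ℝ) ^ (p.2 + 1)) p}

/-- The set of distinct subsums of `k_1,…,k_m`. -/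
def subsums {m : ℕ} (k : Fin m → ℕ) : Finset ℕ :=
  Finset.univ.image (fun S : Finset (Fin m) => ∑ i ∈ S, k i)

/-- subsum sets of summable families are compact -/
theorem isCompact_subsums {ι : Type*} (x : ι → ℝ) (hx : Summable x) (h0 : ∀ i, 0 ≤ x i) :
    IsCompact {s : ℝ | ∃ A : Set ι, s = ∑' i, A.indicator x i} := by
  have hc : Continuous (fun ε : ι → Bool => ∑' i, (if ε i = true then x i else 0)) := by
    refine continuous_tsum (u := x) ?_ hx ?_
    · intro i
      have : (fun ε : ι → Bool => (if ε i = true then x i else 0))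
          = (fun b : Bool => (if b = true then x i else 0)) ∘ (fun ε : ι → Bool => ε i) := rfl
      rw [this]
      exact (continuous_of_discreteTopology).comp (continuous_apply i)
    · intro i ε
      split_ifs
      · simp [abs_of_nonneg (h0 i)]
      · simpa using h0 i
  have : {s : ℝ | ∃ A : Set ι, s = ∑' i, A.indicator x i}
      = Set.range (fun ε : ι → Bool => ∑' i, (if ε i = true then x i else 0)) := by
    ext s
    constructor
    · rintro ⟨A, rfl⟩
      classical
      refine ⟨fun i => decide (i ∈ A), ?_⟩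
      refine tsum_congr fun i => ?_
      by_cases hi : i ∈ A <;> simp [hi]
    · rintro ⟨ε, rfl⟩
      refine ⟨{i | ε i = true}, ?_⟩
      refine tsum_congr fun i => ?_
      by_cases hi : ε i = true <;> simp [hi]
  rw [this]
  exact isCompact_range hc

/-- the concrete parameters -/
def kk : Fin 5 → ℕ := ![1, 8, 16, 32, 48]

theorem digits_kk : ∀ d ∈ subsums kk, ∃ a < 2, ∃ b < 14, d = a + 8 * b := by
  decide +kernel

theorem card_kk : (subsums kk).card = 28 := by
  decide +kernel

/-- the integers `∑ 28^j d_j` with `N` digits `d_j` in the digit set -/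
def F : ℕ → Finset ℕ
  | 0 => {0}
  | N + 1 => (F N ×ˢ subsums kk).image (fun p => 28 * p.1 + p.2)

theorem no_two (N : ℕ) : ∀ z ∈ F N, ∀ w ∈ F N, z ≠ w + 2 := by
  cases N with
  | zero => simp [F]
  | succ N =>
    intro z hz w hw
    simp only [F, Finset.mem_image, Finset.mem_product] at hz hw
    obtain ⟨⟨a, d⟩, ⟨-, hd⟩, rfl⟩ := hz
    obtain ⟨⟨b, e⟩, ⟨-, he⟩, rfl⟩ := hw
    dsimp only at hd he ⊢
    obtain ⟨u, hu, v, hv, rfl⟩ := digits_kk d hd
    obtain ⟨u', hu', v', hv', rfl⟩ := digits_kk e he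
    omega

theorem card_F (N : ℕ) : (F N).card = 28 ^ N := by
  induction N with
  | zero => simp [F]
  | succ N ih =>
    rw [F, Finset.card_image_of_injOn, Finset.card_product, ih, card_kk, pow_succ]
    · rintro ⟨a, d⟩ ha ⟨b, e⟩ hb hab
      simp only [Finset.coe_product, Set.mem_prod, Finset.mem_coe] at ha hb
      dsimp only at hab ha hb
      have h1 := no_two N a ha.1 b hb.1
      have h2 := no_two N b hb.1 a ha.1
      obtain ⟨u, hu, v, hv, rfl⟩ := digits_kk d ha.2
      obtain ⟨u', hu', v', hv', rfl⟩ := digits_kk e hb.2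
      have : a = b ∧ u + 8 * v = u' + 8 * v' := by omega
      rw [this.1, this.2]

theorem summable_kk : Summable (fun p : Fin 5 × ℕ => (kk p.1 : ℝ) / ((28 : ℕ) : ℝ) ^ (p.2 + 1)) := by
  have h : Summable (fun j : ℕ => (1 : ℝ) / ((28 : ℕ) : ℝ) ^ (j + 1)) := by
    have := (summable_geometric_of_lt_one (r := (1/28 : ℝ)) (by norm_num) (by norm_num)).mul_right (1/28)
    refine this.congr fun j => ?_
    push_cast
    rw [one_div_pow, pow_succ, one_div_mul_one_div]
  have h2 := Summable.mul_of_nonneg (f := fun i : Fin 5 => (kk i : ℝ))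
    (g := fun j : ℕ => (1 : ℝ) / ((28 : ℕ) : ℝ) ^ (j + 1)) (Summable.of_finite) h
    (fun i => by positivity) (fun j => by positivity)
  refine h2.congr fun p => ?_
  ring

theorem mem_of_F (N : ℕ) : ∀ z ∈ F N, ∃ A : Finset (Fin 5 × ℕ), (∀ p ∈ A, p.2 < N) ∧
    (z : ℝ) / 28 ^ N = ∑ p ∈ A, (kk p.1 : ℝ) / ((28 : ℕ) : ℝ) ^ (p.2 + 1) := by
  classical
  induction N with
  | zero =>
    intro z hz
    simp only [F, Finset.mem_singleton] at hz
    subst hz
    exact ⟨∅, by simp, by simp⟩
  | succ N ih =>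
    intro z hz
    simp only [F, Finset.mem_image, Finset.mem_product] at hz
    obtain ⟨⟨a, d⟩, ⟨ha, hd⟩, rfl⟩ := hz
    obtain ⟨A, hA, hAs⟩ := ih a ha
    simp only [subsums, Finset.mem_image, Finset.mem_univ, true_and] at hd
    obtain ⟨S, hS⟩ := hd
    refine ⟨A ∪ S.image (fun i => (i, N)), ?_, ?_⟩
    · intro p hp
      simp only [Finset.mem_union, Finset.mem_image] at hp
      rcases hp with hp | ⟨i, -, rfl⟩
      · exact Nat.lt_succ_of_lt (hA p hp)
      · exact Nat.lt_succ_self N
    · rw [Finset.sum_union, ← hAs, Finset.sum_image (fun i _ j _ h => by simpa using h)]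
      · dsimp only
        rw [← Finset.sum_div, ← hS]
        push_cast
        rw [pow_succ]
        field_simp
      · rw [Finset.disjoint_left]
        intro p hp hq
        simp only [Finset.mem_image] at hq
        obtain ⟨i, -, rfl⟩ := hq
        exact absurd (hA _ hp) (lt_irrefl _)

theorem mem_ach (N : ℕ) (z : ℕ) (hz : z ∈ F N) : (z : ℝ) / 28 ^ N ∈ achievementSet 28 kk := by
  classical
  obtain ⟨A, -, hA⟩ := mem_of_F N z hz
  refine ⟨(A : Set (Fin 5 × ℕ)), ?_⟩
  rw [hA]
  rw [tsum_eq_sum (s := A)]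
  · refine Finset.sum_congr rfl fun p hp => ?_
    simp [hp]
  · intro p hp
    simp [hp]

theorem compact_ach : IsCompact (achievementSet 28 kk) :=
  isCompact_subsums _ summable_kk (fun p => by positivity)

theorem vol_thick (N : ℕ) (δ : ℝ) (hδ : 1 / 28 ^ N ≤ δ) :
    1 ≤ volume (Metric.cthickening δ (achievementSet 28 kk)) := by
  have hsub : (⋃ z ∈ F N, Ico ((z : ℝ) / 28 ^ N) (((z : ℝ) + 1) / 28 ^ N))
      ⊆ Metric.cthickening δ (achievementSet 28 kk) := by
    intro y hy
    simp only [Set.mem_iUnion] at hy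
    obtain ⟨z, hz, hy⟩ := hy
    refine Metric.mem_cthickening_of_dist_le y ((z : ℝ) / 28 ^ N) δ _ (mem_ach N z hz) ?_
    rw [Real.dist_eq, abs_of_nonneg (by linarith [hy.1])]
    have := hy.2
    rw [add_div] at this
    linarith
  have hvol : volume (⋃ z ∈ F N, Ico ((z : ℝ) / 28 ^ N) (((z : ℝ) + 1) / 28 ^ N)) = 1 := by
    rw [measure_biUnion_finset]
    · have : ∀ z ∈ F N, volume (Ico ((z : ℝ) / 28 ^ N) (((z : ℝ) + 1) / 28 ^ N))
          = ENNReal.ofReal (1 / 28 ^ N) := by
        intro z _
        rw [Real.volume_Ico]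
        congr 1
        ring
      rw [Finset.sum_congr rfl this, Finset.sum_const, card_F, nsmul_eq_mul]
      rw [← ENNReal.ofReal_natCast, ← ENNReal.ofReal_mul (by positivity)]
      push_cast
      rw [mul_one_div_cancel (by positivity)]
      simp
    · intro z _ w _ hzw
      have h12 : (0 : ℝ) < 28 ^ N := by positivity
      rw [Function.onFun, Set.disjoint_left]
      intro y hy1 hy2
      rcases lt_or_gt_of_ne hzw with h | h
      · have h' : (z : ℝ) + 1 ≤ w := by exact_mod_cast h
        have := div_le_div_of_nonneg_right h' h12.le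
        linarith [hy1.2, hy2.1]
      · have h' : (w : ℝ) + 1 ≤ z := by exact_mod_cast h
        have := div_le_div_of_nonneg_right h' h12.le
        linarith [hy2.2, hy1.1]
    · intro z _
      exact measurableSet_Ico
  calc (1 : ENNReal) = _ := hvol.symm
    _ ≤ _ := measure_mono hsub

theorem vol_ach : 1 ≤ volume (achievementSet 28 kk) := by
  have ht := tendsto_measure_cthickening_of_isCompact (μ := (volume : Measure ℝ)) compact_ach
  have ht' : Tendsto (fun r => volume (Metric.cthickening r (achievementSet 28 kk))) (𝓝[>] 0)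
      (𝓝 (volume (achievementSet 28 kk))) := ht.mono_left nhdsWithin_le_nhds
  refine ge_of_tendsto ht' ?_
  filter_upwards [self_mem_nhdsWithin] with δ hδ
  obtain ⟨N, hN⟩ := exists_pow_lt_of_lt_one (show (0 : ℝ) < δ from hδ) (show (1/28 : ℝ) < 1 by norm_num)
  refine vol_thick N δ ?_
  rw [one_div_pow] at hN
  exact hN.le

/-- The converse of Nitecki's theorem fails: there are `n` and `k_1,…,k_m`, distinct, none
divisible by `n` and with greatest common divisor `1`, with exactly `n` distinct subsums, whose multigeometric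
achievement set has positive Lebesgue measure, while two distinct subsums are congruent modulo
`n`. -/
theorem result : ∃ (n m : ℕ) (k : Fin m → ℕ), 2 ≤ n ∧ 1 ≤ m ∧ StrictMono k ∧
    (∀ i, 0 < k i ∧ ¬ n ∣ k i) ∧ Finset.univ.gcd k = 1 ∧ (subsums k).card = n ∧
    0 < volume (achievementSet n k) ∧
    ∃ σ ∈ subsums k, ∃ τ ∈ subsums k, σ ≠ τ ∧ σ ≡ τ [MOD n] := by
  refine ⟨28, 5, kk, by norm_num, by norm_num, ?_, ?_, ?_, card_kk, ?_, ?_⟩
  · decide
  · decide
  · decide
  · exact lt_of_lt_of_le zero_lt_one vol_ach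
  · refine ⟨0, ?_, 56, ?_, by norm_num, ?_⟩
    · decide +kernel
    · decide +kernel
    · decide

end Pool.Agent.Results.MP_ee56ef_an.Counterexample
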